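import Pool.Agent.Helper99.WP.GoalsE

/-!
# WP, packet VCY: the integral of `vis` is a sum of probabilities of cylinders
-/

open Finset MeasureTheory ProbabilityTheory Filter

namespace Pool.Agent.Helper41.WP

open Pool.Agent.Helper99.WP Pool.Agent.Helper99.ERW

universe u

/-- The laws of the arrows of a cookie environment. -/
lemma isW_arrW {d : ℕ} {ω : Env d} (hω : IsCookieEnv ω) (Λ : Finset (Site d)) :
    IsW (arrW ω Λ) := by
  intro y k
  refine ⟨?_, ?_⟩
  · intro c
    cases c with
    | none =>
      simp only [arrW]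
      refine Finset.sum_nonneg fun e _ => ?_
      split_ifs
      · exact le_rfl
      · exact (hω _ _).1 _
    | some z =>
      simp only [arrW]
      refine Finset.sum_nonneg fun e _ => ?_
      split_ifs
      · exact (hω _ _).1 _
      · exact le_rfl
  · rw [Fintype.sum_option]
    simp only [arrW]
    rw [Finset.sum_comm, ← Finset.sum_add_distrib]
    rw [← (hω (y : Site d) k).2]
    refine Finset.sum_congr rfl fun e _ => ?_
    by_cases h : (y : Site d) + vec e ∈ Λ
    · rw [if_pos h, zero_add, Finset.sum_eq_single (⟨(y : Site d) + vec e, h⟩ : Λ)]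
      · rw [if_pos rfl]
      · intro z _ hz
        rw [if_neg]
        intro h'
        apply hz
        exact Subtype.ext h'.symm
      · intro h'
        exact absurd (Finset.mem_univ _) h'
    · rw [if_neg h, Finset.sum_eq_zero, add_zero]
      intro z _
      rw [if_neg]
      intro h'
      apply h
      rw [h']
      exact z.2

theorem VCY (hVEX : VEX_stmt) (hARW : ARW_stmt) (hSHF : SHF_stmt) : VCY_stmt.{u} := by
  intro d Ω _ P _ μ _ env X hX hcook hstat Λ N x i
  have h1 : ∀ᵐ ω ∂P, ENNReal.ofReal (vis (arrW ω Λ) N x i) =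
      ∑ m ∈ Finset.range (N * Fintype.card Λ + 1), ∑ π : Fin (m + 1) → Λ,
        if exN π 0 = x ∧ exN π m = x ∧ cnt (exN π) m = i ∧ ∀ k < m, cnt (exN π) k < N then
          ENNReal.ofReal (pathProb ω (fun k => ((exN π k : Λ) : Site d)) m) else 0 := by
    filter_upwards [hcook] with ω hω
    rw [hVEX Λ (arrW ω Λ) N x i (isW_arrW hω Λ)]
    have hnn : ∀ (m : ℕ) (π : Fin (m + 1) → Λ), (0 : ℝ) ≤
        if exN π 0 = x ∧ exN π m = x ∧ cnt (exN π) m = i ∧ ∀ k < m, cnt (exN π) k < N then
          ∏ k ∈ Finset.range m, arrW ω Λ (exN π k) (cnt (exN π) k) (some (exN π (k + 1)))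
        else 0 := by
      intro m π
      split_ifs
      · rw [hARW]
        exact pathProb_nonneg hω _ _
      · exact le_rfl
    rw [ENNReal.ofReal_sum_of_nonneg fun m _ => Finset.sum_nonneg fun π _ => hnn m π]
    refine Finset.sum_congr rfl fun m _ => ?_
    rw [ENNReal.ofReal_sum_of_nonneg fun π _ => hnn m π]
    refine Finset.sum_congr rfl fun π _ => ?_
    split_ifs
    · rw [hARW]
    · exact ENNReal.ofReal_zero
  have hmeas : ∀ (m : ℕ) (π : Fin (m + 1) → Λ), Measurable (fun ω : Env d =>
      if exN π 0 = x ∧ exN π m = x ∧ cnt (exN π) m = i ∧ ∀ k < m, cnt (exN π) k < N then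
          ENNReal.ofReal (pathProb ω (fun k => ((exN π k : Λ) : Site d)) m) else 0) := by
    intro m π
    split_ifs
    · exact (measurable_pathProb _ m).ennreal_ofReal
    · exact measurable_const
  rw [lintegral_congr_ae h1, lintegral_finsetSum _
    (fun m _ => Finset.measurable_sum _ fun π _ => hmeas m π)]
  refine Finset.sum_congr rfl fun m _ => ?_
  rw [lintegral_finsetSum _ (fun π _ => hmeas m π)]
  refine Finset.sum_congr rfl fun π _ => ?_
  split_ifs with hc
  · rw [hSHF d P hstat _ m x]
    have h2 := hX.lintegral_cyl hcook (fun k => ((exN π k : Λ) : Site d) - x)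
      (by rw [hc.1, sub_self]) m (fun _ => 1) measurable_const
    simp only [one_mul, lintegral_const, MeasurableSet.univ, Measure.restrict_apply,
      Set.univ_inter] at h2
    exact h2.symm
  · exact lintegral_zero

end Pool.Agent.Helper41.WP
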